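import Pool.Agent.L0h31.KQ.Defs

/-!
# KQ/MOM: the second and the fourth moments of a random unitary frame
-/

set_option autoImplicit false

namespace Pool.Agent.L0h60.KQ

open Pool.Agent.L0h31.KQ

set_option linter.unusedSectionVars false
set_option linter.unusedDecidableInType false

section basic

variable {J P α : Type} [Fintype J] [DecidableEq J] [Fintype P] [DecidableEq P] [DecidableEq α]
  {at_ : J → α} {τ : P → α} {I : Pol J P →ₗ[ℂ] ℂ}

omit [Fintype J] [Fintype P] [DecidableEq J] in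
theorem TT_vv (p q r : P) (j : J) :
    TT p q (vv j r) = if q = r then vv j p else 0 := by
  simp [TT, vv, MvPolynomial.mkDerivation_X]

omit [Fintype J] [Fintype P] [DecidableEq J] in
theorem TT_vb (p q r : P) (j : J) :
    TT p q (vb j r) = -(if p = r then vb j q else 0) := by
  simp [TT, vb, MvPolynomial.mkDerivation_X]

/-- second moments -/
noncomputable def F2 (I : Pol J P →ₗ[ℂ] ℂ) (j : J) (p : P) (l : J) (q : P) : ℂ :=
  I (vv j p * vb l q)

/-- fourth moments -/
noncomputable def F4 (I : Pol J P →ₗ[ℂ] ℂ) (j : J) (p : P) (l : J) (q : P) (j' : J) (p' : P)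
    (l' : J) (q' : P) : ℂ :=
  I (vv j p * vb l q * (vv j' p' * vb l' q'))

theorem inv2 (hE : Expect at_ τ I) {r s : P} (h : τ r = τ s) (j : J) (p : P) (l : J) (q : P) :
    (if s = p then F2 I j r l q else 0) - (if r = q then F2 I j p l s else 0) = 0 := by
  have h1 := hE.inv r s h (vv j p * vb l q)
  rw [Derivation.leibniz, TT_vv, TT_vb] at h1
  have e1 : (if s = p then F2 I j r l q else 0) = I ((if s = p then vv j r else 0) * vb l q) := by
    unfold F2; split_ifs <;> simp
  have e2 : (if r = q then F2 I j p l s else 0) = I (vv j p * (if r = q then vb l s else 0)) := by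
    unfold F2; split_ifs <;> simp
  refine Eq.trans ?_ h1
  rw [e1, e2, ← map_sub]
  congr 1
  simp only [smul_eq_mul]
  ring

theorem inv4 (hE : Expect at_ τ I) {r s : P} (h : τ r = τ s) (j : J) (p : P) (l : J) (q : P)
    (j' : J) (p' : P) (l' : J) (q' : P) :
    (if s = p then F4 I j r l q j' p' l' q' else 0) -
      (if r = q then F4 I j p l s j' p' l' q' else 0) +
      (if s = p' then F4 I j p l q j' r l' q' else 0) -
      (if r = q' then F4 I j p l q j' p' l' s else 0) = 0 := by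
  have h1 := hE.inv r s h (vv j p * vb l q * (vv j' p' * vb l' q'))
  rw [Derivation.leibniz, Derivation.leibniz, Derivation.leibniz, TT_vv, TT_vb, TT_vv, TT_vb] at h1
  have e1 : (if s = p then F4 I j r l q j' p' l' q' else 0) =
      I ((if s = p then vv j r else 0) * vb l q * (vv j' p' * vb l' q')) := by
    unfold F4; split_ifs <;> simp
  have e2 : (if r = q then F4 I j p l s j' p' l' q' else 0) =
      I (vv j p * (if r = q then vb l s else 0) * (vv j' p' * vb l' q')) := by
    unfold F4; split_ifs <;> simp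
  have e3 : (if s = p' then F4 I j p l q j' r l' q' else 0) =
      I (vv j p * vb l q * ((if s = p' then vv j' r else 0) * vb l' q')) := by
    unfold F4; split_ifs <;> simp
  have e4 : (if r = q' then F4 I j p l q j' p' l' s else 0) =
      I (vv j p * vb l q * (vv j' p' * (if r = q' then vb l' s else 0))) := by
    unfold F4; split_ifs <;> simp
  refine Eq.trans ?_ h1
  rw [e1, e2, e3, e4, ← map_sub, ← map_add, ← map_sub]
  congr 1
  simp only [smul_eq_mul]
  ring

theorem mask2 (hE : Expect at_ τ I) {j : J} {p : P} (h : at_ j ≠ τ p) (l : J) (q : P) :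
    F2 I j p l q = 0 := (hE.mask j p _ h).1

theorem mask2' (hE : Expect at_ τ I) {l : J} {q : P} (h : at_ l ≠ τ q) (j : J) (p : P) :
    F2 I j p l q = 0 := by
  unfold F2
  rw [mul_comm]
  exact (hE.mask l q _ h).2

theorem mask4 (hE : Expect at_ τ I) {j : J} {p : P} (h : at_ j ≠ τ p) (l : J) (q : P)
    (j' : J) (p' : P) (l' : J) (q' : P) : F4 I j p l q j' p' l' q' = 0 := by
  unfold F4
  rw [mul_assoc]
  exact (hE.mask j p _ h).1

theorem orth2 (hE : Expect at_ τ I) {j l : J} (h : at_ j = at_ l) :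
    ∑ r, F2 I j r l r = if j = l then 1 else 0 := by
  have h1 := hE.orth j l 1 h
  rw [mul_one, map_sum, hE.one] at h1
  exact h1

theorem orth4 (hE : Expect at_ τ I) {j l : J} (h : at_ j = at_ l)
    (j' : J) (p' : P) (l' : J) (q' : P) :
    ∑ r, F4 I j r l r j' p' l' q' = if j = l then F2 I j' p' l' q' else 0 := by
  have h1 := hE.orth j l (vv j' p' * vb l' q') h
  rw [Finset.sum_mul, map_sum] at h1
  exact h1

omit [Fintype J] [Fintype P] [DecidableEq J] [DecidableEq P] in
theorem swapv (j : J) (p : P) (l : J) (q : P) (j' : J) (p' : P) (l' : J) (q' : P) :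
    F4 I j p l q j' p' l' q' = F4 I j' p' l q j p l' q' := by
  unfold F4
  congr 1
  ring

omit [Fintype J] [Fintype P] [DecidableEq J] [DecidableEq P] in
theorem swapb (j : J) (p : P) (l : J) (q : P) (j' : J) (p' : P) (l' : J) (q' : P) :
    F4 I j p l q j' p' l' q' = F4 I j p l' q' j' p' l q := by
  unfold F4
  congr 1
  ring

/-- the number of the columns with the label `a` -/
def cM (τ : P → α) (a : α) : ℕ := Fintype.card {r // τ r = a}

/-- sums over a column label -/
theorem sum_label (a : α) (f : P → ℂ) (c : ℂ) (h0 : ∀ r, τ r ≠ a → f r = 0)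
    (h1 : ∀ r, τ r = a → f r = c) : ∑ r, f r = cM τ a * c := by
  have h2 : ∀ r, f r = if τ r = a then c else 0 := by
    intro r
    split_ifs with h
    · exact h1 r h
    · exact h0 r h
  rw [Finset.sum_congr rfl fun r _ => h2 r, ← Finset.sum_filter, Finset.sum_const, nsmul_eq_mul,
    cM, Fintype.card_subtype]

theorem cM_pos (p : P) : 0 < cM τ (τ p) := Fintype.card_pos_iff.2 ⟨⟨p, rfl⟩⟩

theorem mom2 (hE : Expect at_ τ I) (j l : J) (p q : P) :
    F2 I j p l q = if j = l ∧ p = q ∧ at_ j = τ p then ((cM τ (τ p) : ℂ))⁻¹ else 0 := by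
  by_cases h1 : at_ j = τ p
  swap
  · rw [mask2 hE h1, if_neg (fun h => h1 h.2.2)]
  by_cases h2 : at_ l = τ q
  swap
  · rw [mask2' hE h2, if_neg]
    rintro ⟨rfl, rfl, h⟩
    exact h2 h
  by_cases h3 : p = q
  swap
  · have := inv2 hE (rfl : τ p = τ p) j p l q
    rw [if_pos rfl, if_neg h3, sub_zero] at this
    rw [this, if_neg (fun h => h3 h.2.1)]
  subst h3
  have h4 : ∑ r, F2 I j r l r = cM τ (τ p) * F2 I j p l p := by
    apply sum_label
    · intro r hr
      exact mask2 hE (fun h => hr (by rw [← h, h1])) _ _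
    · intro r hr
      have := inv2 hE hr.symm j r l p
      rw [if_pos rfl, if_pos rfl, sub_eq_zero] at this
      exact this.symm
  rw [orth2 hE (h1.trans h2.symm)] at h4
  have hM : (cM τ (τ p) : ℂ) ≠ 0 := by exact_mod_cast (cM_pos p).ne'
  have h5 : F2 I j p l p = (cM τ (τ p) : ℂ)⁻¹ * (if j = l then 1 else 0) := by
    rw [h4, ← mul_assoc, inv_mul_cancel₀ hM, one_mul]
  rw [h5]
  by_cases hjl : j = l
  · rw [if_pos hjl, if_pos ⟨hjl, rfl, h1⟩, mul_one]
  · rw [if_neg hjl, if_neg (fun h => hjl h.1), mul_zero]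

/-- two columns with different labels -/
theorem g_diff (hE : Expect at_ τ I) {p p' : P} (hpp : τ p ≠ τ p') {j l j' l' : J}
    (hj : at_ j = τ p) (hl : at_ l = τ p) (hj' : at_ j' = τ p') :
    F4 I j p l p j' p' l' p' =
      (if j = l ∧ j' = l' then 1 else 0) / ((cM τ (τ p) : ℂ) * cM τ (τ p')) := by
  have h4 : ∑ r, F4 I j r l r j' p' l' p' = cM τ (τ p) * F4 I j p l p j' p' l' p' := by
    apply sum_label
    · intro r hr
      exact mask4 hE (fun h => hr (by rw [← h, hj])) _ _ _ _ _ _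
    · intro r hr
      have h1 : r ≠ p' := by rintro rfl; exact hpp hr.symm
      have h2 : p ≠ p' := by rintro rfl; exact hpp rfl
      have := inv4 hE hr.symm j r l p j' p' l' p'
      rw [if_pos rfl, if_pos rfl, if_neg h1, if_neg h2, add_zero, sub_zero, sub_eq_zero] at this
      exact this.symm
  rw [orth4 hE (hj.trans hl.symm), mom2 hE] at h4
  have hM : (cM τ (τ p) : ℂ) ≠ 0 := by exact_mod_cast (cM_pos p).ne'
  have hM' : (cM τ (τ p') : ℂ) ≠ 0 := by exact_mod_cast (cM_pos p').ne'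
  have h5 : F4 I j p l p j' p' l' p' = (cM τ (τ p) : ℂ)⁻¹ *
      (if j = l then (if j' = l' ∧ p' = p' ∧ at_ j' = τ p' then ((cM τ (τ p') : ℂ))⁻¹ else 0)
        else 0) := by
    rw [h4, ← mul_assoc, inv_mul_cancel₀ hM, one_mul]
  rw [h5]
  by_cases h1 : j = l
  · by_cases h2 : j' = l'
    · rw [if_pos h1, if_pos ⟨h2, rfl, hj'⟩, if_pos ⟨h1, h2⟩]
      field_simp
    · rw [if_pos h1, if_neg (fun h => h2 h.1), if_neg (fun h => h2 h.2)]
      simp
  · rw [if_neg h1, if_neg (fun h => h1 h.1)]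
    simp

/-- one column -/
theorem g_one (hE : Expect at_ τ I) {p q : P} (hpq : p ≠ q) (h : τ p = τ q) (j l j' l' : J) :
    F4 I j q l q j' q l' q = F4 I j p l p j' q l' q + F4 I j' p l p j q l' q := by
  have := inv4 hE h j q l p j' q l' q
  rw [if_pos rfl, if_pos rfl, if_pos rfl, if_neg hpq, sub_zero] at this
  have h2 : F4 I j q l p j' p l' q = F4 I j' p l p j q l' q := swapv _ _ _ _ _ _ _ _
  rw [← h2]
  linear_combination -this

/-- two columns with the same label -/
theorem g_same (hE : Expect at_ τ I) {p q : P} (hpq : p ≠ q) (h : τ p = τ q) {j l j' l' : J}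
    (hj : at_ j = τ p) (hl : at_ l = τ p) (hj' : at_ j' = τ p) :
    F4 I j p l p j' q l' q =
      ((if j = l ∧ j' = l' then 1 else 0) -
        (if j = l' ∧ j' = l then 1 else 0) / (cM τ (τ p) : ℂ)) / ((cM τ (τ p) : ℂ) ^ 2 - 1) := by
  have hE1 : ∀ j j' : J, at_ j = τ p → at_ j' = τ p →
      (cM τ (τ p) : ℂ) * F4 I j p l p j' q l' q + F4 I j' p l p j q l' q =
      (if j = l ∧ j' = l' then 1 else 0) / (cM τ (τ p) : ℂ) := by
    intro j j' hj hj'
    have h4 : ∑ r, (F4 I j r l r j' q l' q -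
        if r = q then F4 I j' p l p j q l' q else 0) = cM τ (τ p) * F4 I j p l p j' q l' q := by
      apply sum_label
      · intro r hr
        have hrq : r ≠ q := by rintro rfl; exact hr h.symm
        rw [if_neg hrq, sub_zero]
        exact mask4 hE (fun h => hr (by rw [← h, hj])) _ _ _ _ _ _
      · intro r hr
        by_cases hrq : r = q
        · subst hrq
          rw [if_pos rfl, g_one hE hpq h]
          ring
        · rw [if_neg hrq, sub_zero]
          have := inv4 hE hr.symm j r l p j' q l' q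
          rw [if_pos rfl, if_pos rfl, if_neg hrq, if_neg hpq, add_zero, sub_zero,
            sub_eq_zero] at this
          exact this.symm
    rw [Finset.sum_sub_distrib, orth4 hE (hj.trans hl.symm), Finset.sum_ite_eq' Finset.univ q,
      if_pos (Finset.mem_univ q), mom2 hE, ← h] at h4
    have h6 : (if j = l ∧ j' = l' then 1 else 0) / (cM τ (τ p) : ℂ) =
        (if j = l then (if j' = l' ∧ q = q ∧ at_ j' = τ p then ((cM τ (τ p) : ℂ))⁻¹ else 0)
        else 0) := by
      by_cases h1 : j = l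
      · by_cases h2 : j' = l'
        · rw [if_pos (⟨h1, h2⟩ : j = l ∧ j' = l'), if_pos h1,
            if_pos (⟨h2, rfl, hj'⟩ : j' = l' ∧ q = q ∧ at_ j' = τ p), one_div]
        · rw [if_neg (fun h : j = l ∧ j' = l' => h2 h.2), if_pos h1,
            if_neg (fun h : j' = l' ∧ q = q ∧ at_ j' = τ p => h2 h.1)]
          simp
      · rw [if_neg (fun h : j = l ∧ j' = l' => h1 h.1), if_neg h1]
        simp
    rw [h6]
    linear_combination -h4
  have e1 := hE1 j j' hj hj'
  have e2 := hE1 j' j hj' hj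
  have hM2 : 2 ≤ cM τ (τ p) := by
    have : Nontrivial {r // τ r = τ p} := ⟨⟨p, rfl⟩, ⟨q, h.symm⟩, fun h => hpq (congrArg Subtype.val h)⟩
    exact Fintype.one_lt_card
  have hM : (cM τ (τ p) : ℂ) ≠ 0 := by exact_mod_cast (cM_pos p).ne'
  have hM1 : (cM τ (τ p) : ℂ) ^ 2 - 1 ≠ 0 := by
    intro h0
    have h1 : ((cM τ (τ p) ^ 2 : ℕ) : ℂ) = ((1 : ℕ) : ℂ) := by
      push_cast
      linear_combination h0
    have h2 : cM τ (τ p) ^ 2 = 1 := by exact_mod_cast h1
    nlinarith
  have e3 : (if j' = l ∧ j = l' then (1 : ℂ) else 0) = if j = l' ∧ j' = l then 1 else 0 := by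
    simp only [and_comm]
  rw [e3] at e2
  set X := (if j = l ∧ j' = l' then (1 : ℂ) else 0)
  set Y := (if j = l' ∧ j' = l then (1 : ℂ) else 0)
  rw [eq_div_iff hM1]
  field_simp at e1 e2 ⊢
  linear_combination (cM τ (τ p) : ℂ) * e1 - e2

/-- the mixed moments -/
noncomputable def Ph (at_ : J → α) (τ : P → α) (j l j' l' : J) : ℂ :=
  if at_ j = at_ j' then ((if j = l ∧ j' = l' then 1 else 0) -
    (if j = l' ∧ j' = l then 1 else 0) / (cM τ (at_ j) : ℂ)) / ((cM τ (at_ j) : ℂ) ^ 2 - 1)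
  else (if j = l ∧ j' = l' then 1 else 0) / ((cM τ (at_ j) : ℂ) * cM τ (at_ j'))

/-- two columns -/
theorem two_col (hE : Expect at_ τ I) {p p' : P} (hpp : p ≠ p') {j l j' l' : J}
    (hj : at_ j = τ p) (hl : at_ l = τ p) (hj' : at_ j' = τ p') :
    F4 I j p l p j' p' l' p' = Ph at_ τ j l j' l' := by
  unfold Ph
  by_cases h : τ p = τ p'
  · rw [g_same hE hpp h hj hl (hj'.trans h.symm), if_pos (hj.trans (h.trans hj'.symm)), hj]
  · rw [g_diff hE h hj hl hj',
      if_neg (fun h' : at_ j = at_ j' => h (hj.symm.trans (h'.trans hj'))), hj, hj']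

theorem mom4 (hE : Expect at_ τ I) {j l j' l' : J} {p q p' q' : P} (hj : at_ j = τ p)
    (hl : at_ l = τ q) (hj' : at_ j' = τ p') (hl' : at_ l' = τ q')
    (hM : p = q → p = p' → 2 ≤ cM τ (τ p)) :
    F4 I j p l q j' p' l' q' = (if p = q ∧ p' = q' then Ph at_ τ j l j' l' else 0) +
      (if p = q' ∧ q = p' then Ph at_ τ j l' j' l else 0) := by
  by_cases hA : p = q ∧ p' = q'
  · obtain ⟨rfl, rfl⟩ := hA
    by_cases hpp : p = p'
    · subst hpp
      obtain ⟨⟨q, hq⟩, hqp⟩ : ∃ q : {r // τ r = τ p}, q ≠ ⟨p, rfl⟩ := by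
        have h2 := hM rfl rfl
        unfold cM at h2
        have : Nontrivial {r // τ r = τ p} := Fintype.one_lt_card_iff_nontrivial.1 h2
        exact exists_ne _
      have hqp' : q ≠ p := fun h => hqp (Subtype.ext h)
      rw [if_pos ⟨rfl, rfl⟩, if_pos ⟨rfl, rfl⟩, g_one hE hqp' hq,
        g_same hE hqp' hq (hj.trans hq.symm) (hl.trans hq.symm) (hj'.trans hq.symm),
        g_same hE hqp' hq (hj'.trans hq.symm) (hl.trans hq.symm) (hj.trans hq.symm)]
      unfold Ph
      rw [if_pos (hj.trans hj'.symm), if_pos (hj.trans hj'.symm), hj, hq]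
      have e1 : (if j' = l ∧ j = l' then (1 : ℂ) else 0) = if j = l' ∧ j' = l then 1 else 0 := by
        simp only [and_comm]
      have e2 : (if j' = l' ∧ j = l then (1 : ℂ) else 0) = if j = l ∧ j' = l' then 1 else 0 := by
        simp only [and_comm]
      rw [e1, e2]
    · rw [if_pos ⟨rfl, rfl⟩, if_neg (fun h => hpp h.1), add_zero]
      exact two_col hE hpp hj hl hj'
  · rw [if_neg hA, zero_add]
    by_cases hB : p = q' ∧ q = p'
    · obtain ⟨rfl, rfl⟩ := hB
      have hpq : p ≠ q := fun h => hA ⟨h, h.symm⟩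
      rw [if_pos ⟨rfl, rfl⟩, swapb]
      exact two_col hE hpq hj hl' hj'
    · rw [if_neg hB]
      by_cases h1 : p = q
      · subst h1
        have h2 : p' ≠ q' := fun h => hA ⟨rfl, h⟩
        have := inv4 hE (rfl : τ p' = τ p') j p l p j' p' l' q'
        rw [if_pos (rfl : p' = p'), if_neg h2] at this
        split_ifs at this with h3
        · subst h3
          linear_combination this
        · linear_combination this
      · by_cases h2 : p = q'
        · subst h2
          have h3 : p' ≠ q := fun h => hB ⟨rfl, h.symm⟩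
          have := inv4 hE (rfl : τ p' = τ p') j p l q j' p' l' p
          rw [if_pos (rfl : p' = p'), if_neg h3] at this
          split_ifs at this with h4
          · subst h4
            linear_combination this
          · linear_combination this
        · have := inv4 hE (rfl : τ p = τ p) j p l q j' p' l' q'
          rw [if_pos (rfl : p = p), if_neg h1, if_neg h2, sub_zero, sub_zero] at this
          split_ifs at this with h3
          · subst h3
            linear_combination this / 2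
          · linear_combination this

/-- weights -/
noncomputable def cc (at_ : J → α) (τ : P → α) (j l : J) : ℝ :=
  if at_ j = at_ l then 1 / ((cM τ (at_ j) : ℝ) ^ 2 - 1)
  else 1 / ((cM τ (at_ j) : ℝ) * cM τ (at_ l))

/-- weights -/
noncomputable def ww (at_ : J → α) (τ : P → α) (j : J) : ℝ :=
  1 / ((cM τ (at_ j) : ℝ) * ((cM τ (at_ j) : ℝ) ^ 2 - 1))

theorem Ph_eq (j l j' l' : J) : Ph at_ τ j l' j' l =
    (if j' = l ∧ l' = j then (cc at_ τ j l : ℂ) else 0) -
      (if l' = j' then (if at_ j = at_ j' ∧ j = l then (ww at_ τ j : ℂ) else 0) else 0) := by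
  unfold Ph cc ww
  have e1 : (if j = l' ∧ j' = l then (1 : ℂ) else 0) = if j' = l ∧ l' = j then 1 else 0 := by
    simp only [and_comm, eq_comm]
  rw [e1]
  by_cases h1 : j' = l ∧ l' = j
  · obtain ⟨rfl, rfl⟩ := h1
    by_cases h2 : at_ l' = at_ j'
    · by_cases h3 : l' = j'
      · subst h3
        simp
        ring
      · simp [h2, h3]
    · have h3 : l' ≠ j' := fun h => h2 (by rw [h])
      simp [h2, h3]
  · simp only [if_neg h1]
    by_cases h2 : at_ j = at_ j'
    · by_cases h3 : l' = j'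
      · subst h3
        by_cases h4 : j = l
        · subst h4
          simp [h2]
          ring
        · simp [h2, h4]
      · have h4 : ¬ (j = l ∧ j' = l') := fun h => h3 h.2.symm
        simp [h3, h4]
    · have h3 : ¬ (at_ j = at_ j' ∧ j = l) := fun h => h2 h.1
      simp [h2]

end basic

section sums

variable {J P : Type} [Fintype J] [DecidableEq J] [Fintype P] [DecidableEq P]

theorem sum_two (f : J × P → J × P → ℂ) (p q : P) :
    ∑ w : J × P, ∑ w' : J × P, (if p = w'.2 ∧ q = w.2 then f w w' else 0) =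
      ∑ j', ∑ l', f (j', q) (l', p) := by
  rw [Fintype.sum_prod_type]
  refine Finset.sum_congr rfl fun j' _ => ?_
  rw [Finset.sum_eq_single q]
  · rw [Fintype.sum_prod_type]
    refine Finset.sum_congr rfl fun l' _ => ?_
    rw [Finset.sum_eq_single p]
    · simp
    · intro b _ hb
      rw [if_neg (fun h => hb h.1.symm)]
    · intro h
      exact absurd (Finset.mem_univ _) h
  · intro b _ hb
    refine Finset.sum_eq_zero fun w' _ => ?_
    rw [if_neg (fun h => hb h.2.symm)]
  · intro h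
    exact absurd (Finset.mem_univ _) h

theorem sum_diag (f : J × P → J × P → ℂ) (h : ∀ j' l', ∑ p, f (j', p) (l', p) = 0) :
    ∑ w : J × P, ∑ w' : J × P, (if w.2 = w'.2 then f w w' else 0) = 0 := by
  rw [Fintype.sum_prod_type]
  refine Finset.sum_eq_zero fun j' _ => ?_
  have h1 : ∀ p, ∑ w' : J × P, (if ((j', p) : J × P).2 = w'.2 then f (j', p) w' else 0) =
      ∑ l', f (j', p) (l', p) := by
    intro p
    rw [Fintype.sum_prod_type]
    refine Finset.sum_congr rfl fun l' _ => ?_
    rw [Finset.sum_eq_single p]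
    · simp
    · intro b _ hb
      rw [if_neg (fun h => hb h.symm)]
    · intro h
      exact absurd (Finset.mem_univ _) h
  rw [Finset.sum_congr rfl fun p _ => h1 p, Finset.sum_comm]
  exact Finset.sum_eq_zero fun l' _ => h j' l'

theorem psi_sq (I : Pol J P →ₗ[ℂ] ℂ) (A : Matrix (J × P) (J × P) ℂ) :
    I (psi A ^ 2) = ∑ z, ∑ z', ∑ w, ∑ w', A z' z * A w' w *
      F4 I z.1 z.2 z'.1 z'.2 w.1 w.2 w'.1 w'.2 := by
  have h1 : psi A ^ 2 = ∑ z, ∑ z', ∑ w, ∑ w', (A z' z * A w' w) •
      (vv z.1 z.2 * vb z'.1 z'.2 * (vv w.1 w.2 * vb w'.1 w'.2)) := by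
    rw [pow_two]
    unfold psi
    rw [Finset.sum_mul]
    refine Finset.sum_congr rfl fun z _ => ?_
    rw [Finset.sum_mul]
    refine Finset.sum_congr rfl fun z' _ => ?_
    rw [Finset.mul_sum]
    refine Finset.sum_congr rfl fun w _ => ?_
    rw [Finset.mul_sum]
    refine Finset.sum_congr rfl fun w' _ => ?_
    rw [MvPolynomial.smul_eq_C_mul, map_mul]
    ring
  rw [h1, map_sum]
  refine Finset.sum_congr rfl fun z _ => ?_
  rw [map_sum]
  refine Finset.sum_congr rfl fun z' _ => ?_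
  rw [map_sum]
  refine Finset.sum_congr rfl fun w _ => ?_
  rw [map_sum]
  refine Finset.sum_congr rfl fun w' _ => ?_
  rw [map_smul, smul_eq_mul]
  rfl

end sums

section real

variable {J P α : Type} [Fintype J] [DecidableEq J] [Fintype P] [DecidableEq P] [DecidableEq α]

theorem ww_nonneg (at_ : J → α) (τ : P → α) (j : J) : 0 ≤ ww at_ τ j := by
  unfold ww
  rcases Nat.eq_zero_or_pos (cM τ (at_ j)) with h | h
  · rw [h]; simp
  · have h1 : (1 : ℝ) ≤ cM τ (at_ j) := by exact_mod_cast h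
    apply div_nonneg zero_le_one
    apply mul_nonneg (by linarith)
    nlinarith

theorem sum_fst (f : J × P → J × P → ℝ) :
    ∑ z : J × P, ∑ z' : J × P, (if z.1 = z'.1 then f z z' else 0) =
      ∑ j, ∑ p, ∑ q, f (j, p) (j, q) := by
  rw [Fintype.sum_prod_type]
  refine Finset.sum_congr rfl fun j _ => ?_
  refine Finset.sum_congr rfl fun p _ => ?_
  rw [Fintype.sum_prod_type, Finset.sum_eq_single j]
  · simp
  · intro b _ hb
    refine Finset.sum_eq_zero fun q _ => ?_
    rw [if_neg (fun h => hb h.symm)]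
  · intro h
    exact absurd (Finset.mem_univ _) h

theorem sum_sym (at_ : J → α) (w : J → ℝ) (hw : ∀ j j', at_ j = at_ j' → w j = w j')
    (N : J × P → J × P → ℝ) :
    ∑ z : J × P, ∑ z' : J × P, (if z.1 = z'.1 then
      ∑ j', (if at_ z.1 = at_ j' then w z.1 * N (j', z.2) (j', z'.2) else 0) else 0) =
    ∑ z : J × P, ∑ z' : J × P, (if z.1 = z'.1 then
      ∑ j', (if at_ z.1 = at_ j' then w z.1 * N z z' else 0) else 0) := by
  rw [sum_fst, sum_fst]
  have hc : ∀ g : J → P → P → J → ℝ, ∑ j, ∑ p, ∑ q, ∑ j', g j p q j' =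
      ∑ j, ∑ j', ∑ p, ∑ q, g j p q j' := by
    intro g
    refine Finset.sum_congr rfl fun j _ => ?_
    rw [Finset.sum_congr rfl fun p _ => Finset.sum_comm, Finset.sum_comm]
  rw [hc fun j p q j' => if at_ j = at_ j' then w j * N (j', p) (j', q) else 0,
    hc fun j p q j' => if at_ j = at_ j' then w j * N (j, p) (j, q) else 0, Finset.sum_comm]
  refine Finset.sum_congr rfl fun j _ => Finset.sum_congr rfl fun j' _ =>
    Finset.sum_congr rfl fun p _ => Finset.sum_congr rfl fun q _ => ?_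
  by_cases h : at_ j = at_ j'
  · rw [if_pos h, if_pos h.symm, hw j j' h]
  · rw [if_neg h, if_neg (fun h' => h h'.symm)]

theorem re_mul_le (x y : ℂ) : (x * y).re ≤ (‖x‖ ^ 2 + ‖y‖ ^ 2) / 2 := by
  have h1 : (x * y).re ≤ ‖x * y‖ := Complex.re_le_norm _
  rw [norm_mul] at h1
  nlinarith [sq_nonneg (‖x‖ - ‖y‖)]

end real

theorem t_MOM2 : S_MOM2 := by
  intro J P α _ _ _ _ _ at_ τ I hE j j' p p'
  exact mom2 hE j j' p p'

theorem t_MOM4 : S_MOM4 := by
  intro J P α _ _ _ _ _ at_ τ I hE A hA hmask hfirst hsize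
  -- the formula
  have h1 : ∀ z z' w w' : J × P, A z' z * A w' w * F4 I z.1 z.2 z'.1 z'.2 w.1 w.2 w'.1 w'.2 =
      (if w.2 = w'.2 then (if z.2 = z'.2 then A z' z * A w' w * Ph at_ τ z.1 z'.1 w.1 w'.1
        else 0) else 0) +
      (if z.2 = w'.2 ∧ z'.2 = w.2 then A z' z * A w' w * Ph at_ τ z.1 w'.1 w.1 z'.1 else 0) := by
    intro z z' w w'
    by_cases hz : A z' z = 0
    · simp [hz]
    by_cases hw : A w' w = 0
    · simp [hw]
    obtain ⟨m1, m2⟩ := hmask z' z hz
    obtain ⟨m3, m4⟩ := hmask w' w hw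
    rw [mom4 hE m2 m1 m4 m3, mul_add, mul_ite, mul_ite, mul_zero]
    · congr 1
      by_cases a : w.2 = w'.2
      · by_cases b : z.2 = z'.2
        · rw [if_pos ⟨b, a⟩, if_pos a, if_pos b]
        · rw [if_neg (fun h : z.2 = z'.2 ∧ w.2 = w'.2 => b h.1), if_pos a, if_neg b]
      · rw [if_neg (fun h : z.2 = z'.2 ∧ w.2 = w'.2 => a h.2), if_neg a]
    · intro e _
      have e1 : at_ z'.1 = at_ z.1 := by rw [m1, m2, e]
      have := hsize z' z hz e1
      have hn : 0 < Fintype.card {j // at_ j = at_ z'.1} :=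
        Fintype.card_pos_iff.2 ⟨⟨z'.1, rfl⟩⟩
      unfold cM
      rw [← m2, ← e1]
      omega
  have h2 : I (psi A ^ 2) = ∑ z, ∑ z', (A z' z * A z z' * (cc at_ τ z.1 z'.1 : ℂ) -
      ∑ j', (if at_ z.1 = at_ j' ∧ z.1 = z'.1 then
        A z' z * A (j', z.2) (j', z'.2) * (ww at_ τ z.1 : ℂ) else 0)) := by
    rw [psi_sq]
    refine Finset.sum_congr rfl fun z _ => Finset.sum_congr rfl fun z' _ => ?_
    rw [Finset.sum_congr rfl fun w _ => Finset.sum_congr rfl fun w' _ => h1 z z' w w']
    rw [Finset.sum_congr rfl fun w _ => Finset.sum_add_distrib, Finset.sum_add_distrib,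
      sum_diag (fun w w' => if z.2 = z'.2 then A z' z * A w' w * Ph at_ τ z.1 z'.1 w.1 w'.1
        else 0), zero_add,
      sum_two (fun w w' => A z' z * A w' w * Ph at_ τ z.1 w'.1 w.1 z'.1)]
    · have h3 : ∀ j' l', A z' z * A (l', z.2) (j', z'.2) * Ph at_ τ z.1 l' j' z'.1 =
          (if j' = z'.1 ∧ l' = z.1 then
            A z' z * A (l', z.2) (j', z'.2) * (cc at_ τ z.1 z'.1 : ℂ) else 0) -
          (if l' = j' then (if at_ z.1 = at_ j' ∧ z.1 = z'.1 then
            A z' z * A (l', z.2) (j', z'.2) * (ww at_ τ z.1 : ℂ) else 0) else 0) := by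
        intro j' l'
        rw [Ph_eq, mul_sub, mul_ite, mul_zero, mul_ite, mul_zero, mul_ite, mul_zero]
      change ∑ j', ∑ l', A z' z * A (l', z.2) (j', z'.2) * Ph at_ τ z.1 l' j' z'.1 = _
      rw [Finset.sum_congr rfl fun j' _ => Finset.sum_congr rfl fun l' _ => h3 j' l']
      rw [Finset.sum_congr rfl fun j' _ => Finset.sum_sub_distrib _ _, Finset.sum_sub_distrib]
      congr 1
      · rw [Finset.sum_eq_single z'.1, Finset.sum_eq_single z.1]
        · rw [if_pos ⟨rfl, rfl⟩]
        · intro b _ hb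
          rw [if_neg (fun h => hb h.2)]
        · intro h
          exact absurd (Finset.mem_univ _) h
        · intro b _ hb
          refine Finset.sum_eq_zero fun l' _ => ?_
          rw [if_neg (fun h => hb h.1)]
        · intro h
          exact absurd (Finset.mem_univ _) h
      · refine Finset.sum_congr rfl fun j' _ => ?_
        rw [Finset.sum_ite_eq' Finset.univ j', if_pos (Finset.mem_univ _)]
    · intro j' l'
      by_cases hzz : z.2 = z'.2
      · simp only [if_pos hzz]
        rw [← Finset.sum_mul, ← Finset.mul_sum, hfirst, mul_zero, zero_mul]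
      · simp only [if_neg hzz, Finset.sum_const_zero]
  have hN : ∀ z z', ‖A z z'‖ = ‖A z' z‖ := by
    intro z z'
    rw [← hA.apply z z', norm_star]
  have h3 : (I (psi A ^ 2)).re = ∑ z, ∑ z', (cc at_ τ z.1 z'.1 * ‖A z z'‖ ^ 2 -
      (if z.1 = z'.1 then ∑ j', (if at_ z.1 = at_ j' then
        ww at_ τ z.1 * (A z' z * A (j', z.2) (j', z'.2)).re else 0) else 0)) := by
    rw [h2, Complex.re_sum]
    refine Finset.sum_congr rfl fun z _ => ?_
    rw [Complex.re_sum]
    refine Finset.sum_congr rfl fun z' _ => ?_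
    rw [Complex.sub_re, Complex.re_sum]
    congr 1
    · have e1 : A z' z * A z z' = ((‖A z z'‖ ^ 2 : ℝ) : ℂ) := by
        rw [← hA.apply z z', norm_star]
        change A z' z * (starRingEnd ℂ) (A z' z) = _
        rw [Complex.mul_conj, Complex.normSq_eq_norm_sq]
      rw [e1, ← Complex.ofReal_mul, Complex.ofReal_re, mul_comm]
    · by_cases hz : z.1 = z'.1
      · rw [if_pos hz]
        refine Finset.sum_congr rfl fun j' _ => ?_
        by_cases hj : at_ z.1 = at_ j'
        · rw [if_pos ⟨hj, hz⟩, if_pos hj, Complex.re_mul_ofReal, mul_comm]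
        · rw [if_neg (fun h : at_ z.1 = at_ j' ∧ z.1 = z'.1 => hj h.1), if_neg hj, Complex.zero_re]
      · rw [if_neg hz]
        refine Finset.sum_eq_zero fun j' _ => ?_
        rw [if_neg (fun h : at_ z.1 = at_ j' ∧ z.1 = z'.1 => hz h.2), Complex.zero_re]
  have h4 : ∑ z : J × P, ∑ z' : J × P, (if z.1 = z'.1 then ∑ j', (if at_ z.1 = at_ j' then
        ww at_ τ z.1 * (A z' z * A (j', z.2) (j', z'.2)).re else 0) else 0) ≤
      ∑ z : J × P, ∑ z' : J × P, (if z.1 = z'.1 then ∑ j', (if at_ z.1 = at_ j' then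
        ww at_ τ z.1 * ‖A z z'‖ ^ 2 else 0) else 0) := by
    have hsym := sum_sym at_ (ww at_ τ) (fun j j' h => by unfold ww; rw [h])
      (fun z z' : J × P => ‖A z z'‖ ^ 2)
    have e1 : ∑ z : J × P, ∑ z' : J × P, (if z.1 = z'.1 then ∑ j', (if at_ z.1 = at_ j' then
        ww at_ τ z.1 * (A z' z * A (j', z.2) (j', z'.2)).re else 0) else 0) ≤
        ∑ z : J × P, ∑ z' : J × P, ((1 / 2) * (if z.1 = z'.1 then
          ∑ j', (if at_ z.1 = at_ j' then ww at_ τ z.1 * ‖A z z'‖ ^ 2 else 0) else 0) +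
        (1 / 2) * (if z.1 = z'.1 then ∑ j', (if at_ z.1 = at_ j' then
          ww at_ τ z.1 * ‖A (j', z.2) (j', z'.2)‖ ^ 2 else 0) else 0)) := by
      refine Finset.sum_le_sum fun z _ => Finset.sum_le_sum fun z' _ => ?_
      by_cases hz : z.1 = z'.1
      · simp only [if_pos hz]
        rw [Finset.mul_sum, Finset.mul_sum, ← Finset.sum_add_distrib]
        refine Finset.sum_le_sum fun j' _ => ?_
        by_cases hj : at_ z.1 = at_ j'
        · simp only [if_pos hj]
          have h5 := re_mul_le (A z' z) (A (j', z.2) (j', z'.2))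
          have h6 := mul_le_mul_of_nonneg_left h5 (ww_nonneg at_ τ z.1)
          rw [hN z z']
          linarith
        · simp only [if_neg hj]
          simp
      · simp only [if_neg hz]
        simp
    refine e1.trans (le_of_eq ?_)
    rw [Finset.sum_congr rfl fun z _ => Finset.sum_add_distrib, Finset.sum_add_distrib]
    simp only [← Finset.mul_sum]
    rw [hsym]
    ring
  rw [h3, Finset.mul_sum]
  have h5 : ∑ z : J × P, (1 / 2) * ∑ z' : J × P, ‖A z z'‖ ^ 2 /
        ((Fintype.card {r // τ r = at_ z.1} : ℝ) * (Fintype.card {r // τ r = at_ z'.1} : ℝ)) ≤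
      ∑ z : J × P, ∑ z' : J × P, (cc at_ τ z.1 z'.1 * ‖A z z'‖ ^ 2 -
        (if z.1 = z'.1 then ∑ j', (if at_ z.1 = at_ j' then
        ww at_ τ z.1 * ‖A z z'‖ ^ 2 else 0) else 0)) := by
    refine Finset.sum_le_sum fun z _ => ?_
    rw [Finset.mul_sum]
    refine Finset.sum_le_sum fun z' _ => ?_
    by_cases hz : A z z' = 0
    · rw [hz]
      simp
    obtain ⟨m1, m2⟩ := hmask z z' hz
    have hM : 0 < cM τ (at_ z.1) := by rw [m1]; exact cM_pos _
    have hM' : 0 < cM τ (at_ z'.1) := by rw [m2]; exact cM_pos _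
    have hMr : (0 : ℝ) < cM τ (at_ z.1) := by exact_mod_cast hM
    have hMr' : (0 : ℝ) < cM τ (at_ z'.1) := by exact_mod_cast hM'
    have hx : 0 ≤ ‖A z z'‖ ^ 2 := by positivity
    change 1 / 2 * (‖A z z'‖ ^ 2 / ((cM τ (at_ z.1) : ℝ) * cM τ (at_ z'.1))) ≤ _
    by_cases ha : at_ z.1 = at_ z'.1
    · have hs := hsize z z' hz ha
      have hn : 0 < Fintype.card {j // at_ j = at_ z.1} :=
        Fintype.card_pos_iff.2 ⟨⟨z.1, rfl⟩⟩
      have hs' : 2 * Fintype.card {j // at_ j = at_ z.1} ≤ cM τ (at_ z.1) := hs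
      have hM2 : 2 ≤ cM τ (at_ z.1) := by omega
      have hMr2 : (2 : ℝ) ≤ cM τ (at_ z.1) := by exact_mod_cast hM2
      have hsr : 2 * (Fintype.card {j // at_ j = at_ z.1} : ℝ) ≤ cM τ (at_ z.1) := by
        exact_mod_cast hs'
      have hcc : cc at_ τ z.1 z'.1 = 1 / ((cM τ (at_ z.1) : ℝ) ^ 2 - 1) := by
        unfold cc; rw [if_pos ha]
      have hsum : (if z.1 = z'.1 then ∑ j', (if at_ z.1 = at_ j' then
          ww at_ τ z.1 * ‖A z z'‖ ^ 2 else 0) else 0) ≤
          (Fintype.card {j // at_ j = at_ z.1} : ℝ) * (ww at_ τ z.1 * ‖A z z'‖ ^ 2) := by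
        have hw0 : 0 ≤ ww at_ τ z.1 * ‖A z z'‖ ^ 2 := mul_nonneg (ww_nonneg _ _ _) hx
        split_ifs with h
        · rw [← Finset.sum_filter, Finset.sum_const, nsmul_eq_mul, Fintype.card_subtype]
          apply le_of_eq
          congr 3
          ext j
          simp [eq_comm]
        · positivity
      rw [hcc, ← ha]
      have hD : (0 : ℝ) < (cM τ (at_ z.1) : ℝ) ^ 2 - 1 := by nlinarith
      have hw : (Fintype.card {j // at_ j = at_ z.1} : ℝ) * ww at_ τ z.1 ≤
          1 / 2 * (1 / ((cM τ (at_ z.1) : ℝ) ^ 2 - 1)) := by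
        unfold ww
        rw [mul_one_div, div_le_iff₀ (by positivity)]
        have : 1 / 2 * (1 / ((cM τ (at_ z.1) : ℝ) ^ 2 - 1)) *
            ((cM τ (at_ z.1) : ℝ) * ((cM τ (at_ z.1) : ℝ) ^ 2 - 1)) = cM τ (at_ z.1) / 2 := by
          field_simp
        rw [this]
        linarith
      have hw' := mul_le_mul_of_nonneg_right hw hx
      have h7 : 1 / 2 * (‖A z z'‖ ^ 2 / ((cM τ (at_ z.1) : ℝ) * cM τ (at_ z.1))) ≤
          1 / 2 * (1 / ((cM τ (at_ z.1) : ℝ) ^ 2 - 1)) * ‖A z z'‖ ^ 2 := by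
        have e : 1 / 2 * (1 / ((cM τ (at_ z.1) : ℝ) ^ 2 - 1)) * ‖A z z'‖ ^ 2 =
            1 / 2 * (‖A z z'‖ ^ 2 / ((cM τ (at_ z.1) : ℝ) ^ 2 - 1)) := by ring
        rw [e]
        apply mul_le_mul_of_nonneg_left _ (by norm_num)
        apply div_le_div_of_nonneg_left hx hD
        nlinarith
      have h8 : 1 / 2 * (1 / ((cM τ (at_ z.1) : ℝ) ^ 2 - 1)) * ‖A z z'‖ ^ 2 +
          1 / 2 * (1 / ((cM τ (at_ z.1) : ℝ) ^ 2 - 1)) * ‖A z z'‖ ^ 2 =
          1 / ((cM τ (at_ z.1) : ℝ) ^ 2 - 1) * ‖A z z'‖ ^ 2 := by ring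
      have h9 : (Fintype.card {j // at_ j = at_ z.1} : ℝ) * (ww at_ τ z.1 * ‖A z z'‖ ^ 2) =
          (Fintype.card {j // at_ j = at_ z.1} : ℝ) * ww at_ τ z.1 * ‖A z z'‖ ^ 2 := by ring
      linarith
    · have hz1 : z.1 ≠ z'.1 := fun h => ha (by rw [h])
      rw [if_neg hz1, sub_zero]
      unfold cc
      rw [if_neg ha]
      have : 0 ≤ ‖A z z'‖ ^ 2 / ((cM τ (at_ z.1) : ℝ) * cM τ (at_ z'.1)) := by positivity
      have e : 1 / ((cM τ (at_ z.1) : ℝ) * cM τ (at_ z'.1)) * ‖A z z'‖ ^ 2 =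
        ‖A z z'‖ ^ 2 / ((cM τ (at_ z.1) : ℝ) * cM τ (at_ z'.1)) := by ring
      rw [e]
      linarith
  refine h5.trans ?_
  rw [Finset.sum_congr rfl fun z _ => Finset.sum_sub_distrib _ _, Finset.sum_sub_distrib,
    Finset.sum_congr rfl fun z _ => Finset.sum_sub_distrib _ _, Finset.sum_sub_distrib]
  linarith

end Pool.Agent.L0h60.KQ
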