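import Pool.Agent.L0h31.KQ.Defs2

/-!
# KQ/GAU: the standard complex Gaussian measure
-/

set_option autoImplicit false

namespace Pool.Agent.L0h60.KQ

open Pool.Agent.L0h31.KQ MeasureTheory
open scoped ENNReal

/-! ### one variable -/

/-- the density in one variable -/
noncomputable def phi (x : ℂ) : ℝ := Real.exp (-‖x‖ ^ 2) / Real.pi

theorem int_pow (k : ℕ) : ∫ x : ℂ, ‖x‖ ^ k * phi x = Real.Gamma (((k : ℝ) + 2) / 2) := by
  have h := Complex.integral_rpow_mul_exp_neg_rpow (p := 2) (q := k) (by norm_num)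
    (by have : (0 : ℝ) ≤ k := Nat.cast_nonneg k; linarith)
  have h2 : ∀ x : ℂ, ‖x‖ ^ k * phi x =
      (1 / Real.pi) * (‖x‖ ^ (k : ℝ) * Real.exp (-‖x‖ ^ (2 : ℝ))) := by
    intro x
    rw [Real.rpow_natCast, Real.rpow_two, phi]
    ring
  simp_rw [h2]
  rw [integral_const_mul, h]
  have : Real.pi ≠ 0 := Real.pi_ne_zero
  field_simp

theorem integrable_pow (k : ℕ) : Integrable (fun x : ℂ => ‖x‖ ^ k * phi x) := by
  apply Integrable.of_integral_ne_zero
  rw [int_pow]
  exact (Real.Gamma_pos_of_pos (by positivity)).ne'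

theorem int0 : ∫ x : ℂ, phi x = 1 := by
  have := int_pow 0
  simpa using this

theorem int2 : ∫ x : ℂ, ‖x‖ ^ 2 * phi x = 1 := by
  rw [int_pow 2]
  have : (((2 : ℕ) : ℝ) + 2) / 2 = (1 : ℕ) + 1 := by norm_num
  rw [this, Real.Gamma_nat_eq_factorial]
  norm_num

theorem int4 : ∫ x : ℂ, ‖x‖ ^ 4 * phi x = 2 := by
  rw [int_pow 4]
  have : (((4 : ℕ) : ℝ) + 2) / 2 = (2 : ℕ) + 1 := by norm_num
  rw [this, Real.Gamma_nat_eq_factorial]
  norm_num

theorem integrable_phi : Integrable phi := by
  have := integrable_pow 0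
  simpa using this

theorem phi_nonneg (x : ℂ) : 0 ≤ phi x := by
  unfold phi; positivity

theorem exp_phi (l x : ℂ) : Real.exp (star l * x).re * phi x =
    Real.exp (‖l‖ ^ 2 / 4) * phi (x - l / 2) := by
  unfold phi
  rw [mul_div_assoc', mul_div_assoc', ← Real.exp_add, ← Real.exp_add]
  congr 2
  rw [Complex.sq_norm, Complex.sq_norm, Complex.sq_norm, Complex.normSq_apply,
    Complex.normSq_apply, Complex.normSq_apply]
  simp
  ring

theorem int_exp (l : ℂ) : ∫ x : ℂ, Real.exp (star l * x).re * phi x =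
    Real.exp (‖l‖ ^ 2 / 4) := by
  simp_rw [exp_phi l]
  rw [integral_const_mul, integral_sub_right_eq_self (fun x => phi x) (l / 2), int0, mul_one]

theorem integrable_exp (l : ℂ) : Integrable (fun x : ℂ => Real.exp (star l * x).re * phi x) := by
  simp_rw [exp_phi l]
  exact (integrable_phi.comp_sub_right (l / 2)).const_mul _

/-! ### products -/

section

variable {Z : Type} [Fintype Z]

/-- the density -/
noncomputable def dens (g : Z → ℂ) : ℝ≥0∞ :=
  ENNReal.ofReal (Real.exp (-∑ z, ‖g z‖ ^ 2) / Real.pi ^ Fintype.card Z)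

theorem dens_real (g : Z → ℂ) :
    Real.exp (-∑ z, ‖g z‖ ^ 2) / Real.pi ^ Fintype.card Z = ∏ z, phi (g z) := by
  unfold phi
  rw [Finset.prod_div_distrib, Finset.prod_const, Finset.card_univ, ← Real.exp_sum,
    Finset.sum_neg_distrib]

theorem dens_toReal (g : Z → ℂ) : (dens g).toReal = ∏ z, phi (g z) := by
  unfold dens
  rw [dens_real, ENNReal.toReal_ofReal]
  exact Finset.prod_nonneg fun z _ => phi_nonneg _

theorem measurable_dens : Measurable (dens : (Z → ℂ) → ℝ≥0∞) := by
  unfold dens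
  apply Measurable.ennreal_ofReal
  fun_prop

theorem gau_eq : gau Z = (volume : Measure (Z → ℂ)).withDensity dens := rfl

theorem dens_lt (g : Z → ℂ) : dens g < ∞ := ENNReal.ofReal_lt_top

theorem integrable_prod (f : Z → ℂ → ℝ) (hf : ∀ z, Integrable (fun x => f z x * phi x)) :
    Integrable (fun g : Z → ℂ => ∏ z, f z (g z)) (gau Z) := by
  rw [gau_eq, integrable_withDensity_iff_integrable_smul' measurable_dens
    (Filter.Eventually.of_forall dens_lt)]
  have h := Integrable.fintype_prod_dep (μ := fun _ : Z => (volume : Measure ℂ)) hf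
  refine h.congr (Filter.Eventually.of_forall fun g => ?_)
  change ∏ z, f z (g z) * phi (g z) = (dens g).toReal * ∏ z, f z (g z)
  rw [dens_toReal, Finset.prod_mul_distrib, mul_comm]

theorem integral_prod' (f : Z → ℂ → ℝ) :
    ∫ g, ∏ z, f z (g z) ∂(gau Z) = ∏ z, ∫ x, f z x * phi x := by
  rw [gau_eq, integral_withDensity_eq_integral_toReal_smul measurable_dens
    (Filter.Eventually.of_forall dens_lt), ← integral_fintype_prod_volume_eq_prod]
  congr 1
  ext g
  rw [dens_toReal, Finset.prod_mul_distrib, mul_comm, smul_eq_mul]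

theorem lintegral_prod' (f : Z → ℂ → ℝ) (hf0 : ∀ z x, 0 ≤ f z x)
    (hf : ∀ z, Integrable (fun x => f z x * phi x)) :
    ∫⁻ g, ENNReal.ofReal (∏ z, f z (g z)) ∂(gau Z) = ENNReal.ofReal (∏ z, ∫ x, f z x * phi x) := by
  rw [← ofReal_integral_eq_lintegral_ofReal (integrable_prod f hf)
    (Filter.Eventually.of_forall fun g => Finset.prod_nonneg fun z _ => hf0 z _), integral_prod']

end

theorem t_GAU1 : S_GAU1 := by
  intro Z _
  constructor
  have h := lintegral_prod' (Z := Z) (fun _ _ => 1) (fun _ _ => zero_le_one)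
    (fun _ => by simpa using integrable_phi)
  simpa [int0] using h

theorem t_GAU2 : S_GAU2 := by
  intro Z _ l
  have h := lintegral_prod' (Z := Z) (fun z x => Real.exp (star (l z) * x).re)
    (fun _ _ => (Real.exp_pos _).le) (fun z => integrable_exp (l z))
  simp_rw [int_exp] at h
  rw [← Real.exp_sum, ← Finset.sum_div] at h
  rw [← h]
  congr 1
  ext g
  rw [Real.exp_sum]

section

variable {Z : Type} [Fintype Z] [DecidableEq Z]

theorem prod_one (z : Z) (u : ℂ → ℝ) (g : Z → ℂ) :
    ∏ z', (if z' = z then u (g z') else 1) = u (g z) := by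
  rw [Finset.prod_ite_eq' Finset.univ z, if_pos (Finset.mem_univ _)]

theorem integrable_one (z : Z) (k : ℕ) : Integrable (fun g : Z → ℂ => ‖g z‖ ^ k) (gau Z) := by
  have h := integrable_prod (Z := Z) (fun z' x => if z' = z then ‖x‖ ^ k else 1) (by
    intro z'
    by_cases h : z' = z
    · simpa [h] using integrable_pow k
    · simpa [h] using integrable_phi)
  refine h.congr (Filter.Eventually.of_forall fun g => ?_)
  exact prod_one z (fun x => ‖x‖ ^ k) g

theorem integral_one (z : Z) (k : ℕ) :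
    ∫ g : Z → ℂ, ‖g z‖ ^ k ∂(gau Z) = ∫ x : ℂ, ‖x‖ ^ k * phi x := by
  have h := integral_prod' (Z := Z) (fun z' x => if z' = z then ‖x‖ ^ k else 1)
  simp_rw [prod_one z (fun x => ‖x‖ ^ k)] at h
  rw [h, Finset.prod_eq_single z]
  · simp
  · intro b _ hb
    simp [hb, int0]
  · intro h
    exact absurd (Finset.mem_univ _) h

theorem integral_two {z w : Z} (hzw : z ≠ w) :
    ∫ g : Z → ℂ, ‖g z‖ ^ 2 * ‖g w‖ ^ 2 ∂(gau Z) = 1 := by
  have h := integral_prod' (Z := Z)
    (fun z' x => (if z' = z then ‖x‖ ^ 2 else 1) * (if z' = w then ‖x‖ ^ 2 else 1))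
  simp_rw [Finset.prod_mul_distrib, prod_one z (fun x => ‖x‖ ^ 2),
    prod_one w (fun x => ‖x‖ ^ 2)] at h
  rw [h]
  refine Finset.prod_eq_one fun z' _ => ?_
  by_cases h1 : z' = z
  · have h2 : z' ≠ w := by rw [h1]; exact hzw
    simp only [if_pos h1, if_neg h2, mul_one]
    exact int2
  · by_cases h2 : z' = w
    · simp only [if_neg h1, if_pos h2, one_mul]
      exact int2
    · simp only [if_neg h1, if_neg h2, one_mul]
      exact int0

end

theorem t_GAU3 : S_GAU3 := by
  intro Z _ _
  refine ⟨fun k => ?_, fun z => ?_, fun z z' => ?_⟩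
  · have : IsProbabilityMeasure (gau Z) := t_GAU1 Z
    have h1 : Integrable (fun g : Z → ℂ => 1 + ∑ z, ‖g z‖ ^ k) (gau Z) :=
      (integrable_const 1).add (integrable_finsetSum _ fun z _ => integrable_one z k)
    refine h1.mono' (by fun_prop) (Filter.Eventually.of_forall fun g => ?_)
    rw [Real.norm_of_nonneg (by positivity)]
    rcases isEmpty_or_nonempty Z with hZ | hZ
    · have : ‖g‖ = 0 := by
        rw [norm_eq_zero]
        exact Subsingleton.elim _ _
      rw [this]
      have h2 : (0 : ℝ) ^ k ≤ 1 := pow_le_one₀ le_rfl zero_le_one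
      have h3 : 0 ≤ ∑ z, ‖g z‖ ^ k := Finset.sum_nonneg fun z _ => by positivity
      linarith
    · obtain ⟨z, hz⟩ : ∃ z, ‖g‖ ≤ ‖g z‖ := by
        by_contra hcon
        push Not at hcon
        obtain ⟨z₀⟩ := hZ
        have h0 : 0 < ‖g‖ := (norm_nonneg _).trans_lt (hcon z₀)
        exact absurd ((pi_norm_lt_iff h0).2 hcon) (lt_irrefl _)
      have h2 : ‖g‖ ^ k ≤ ‖g z‖ ^ k := pow_le_pow_left₀ (norm_nonneg _) hz k
      have h3 : ‖g z‖ ^ k ≤ ∑ z, ‖g z‖ ^ k :=
        Finset.single_le_sum (f := fun z => ‖g z‖ ^ k) (fun z _ => by positivity)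
          (Finset.mem_univ z)
      linarith
  · rw [integral_one, int2]
  · by_cases h : z = z'
    · subst h
      rw [if_pos rfl]
      have : ∀ g : Z → ℂ, ‖g z‖ ^ 2 * ‖g z‖ ^ 2 = ‖g z‖ ^ 4 := fun g => by ring
      simp_rw [this]
      rw [integral_one, int4]
    · rw [if_neg h]
      exact integral_two h

theorem map_withDensity {X Y : Type} [MeasurableSpace X] [MeasurableSpace Y] (μ : Measure X)
    (T : X → Y) (hT : Measurable T) (D : Y → ℝ≥0∞) (hD : Measurable D) :
    (μ.withDensity (D ∘ T)).map T = (μ.map T).withDensity D := by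
  ext S hS
  rw [Measure.map_apply hT hS, withDensity_apply _ (hT hS), withDensity_apply _ hS,
    setLIntegral_map hS hD hT]
  rfl

theorem t_GAU4 : S_GAU4 := by
  intro Z _ L hL
  have hinj : Function.Injective L := by
    rw [injective_iff_map_eq_zero]
    intro g hg
    have h1 := hL g
    rw [hg] at h1
    have h2 : ∑ z, ‖g z‖ ^ 2 = 0 := by
      rw [← h1]; simp
    funext z
    have h3 := (Finset.sum_eq_zero_iff_of_nonneg (fun z _ => by positivity)).1 h2 z
      (Finset.mem_univ z)
    simpa using h3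
  have hdet : LinearMap.det L ≠ 0 := by
    intro h0
    have h1 := LinearMap.bot_lt_ker_of_det_eq_zero h0
    rw [LinearMap.ker_eq_bot.2 hinj] at h1
    exact lt_irrefl _ h1
  have hLm : Measurable L := (LinearMap.continuous_of_finiteDimensional L).measurable
  have hD : (dens : (Z → ℂ) → ℝ≥0∞) ∘ L = dens := by
    funext g
    simp only [Function.comp_apply, dens, hL g]
  have h1 : (gau Z).map L = ENNReal.ofReal |(LinearMap.det L)⁻¹| • gau Z := by
    rw [gau_eq]
    nth_rewrite 1 [← hD]
    rw [map_withDensity _ _ hLm _ measurable_dens,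
      Measure.map_linearMap_addHaar_eq_smul_addHaar _ hdet, withDensity_smul_measure]
  have hp : IsProbabilityMeasure (gau Z) := t_GAU1 Z
  have h2 : (gau Z).map L Set.univ = 1 := by
    rw [Measure.map_apply hLm MeasurableSet.univ, Set.preimage_univ, measure_univ]
  rw [h1, Measure.smul_apply, measure_univ, smul_eq_mul, mul_one] at h2
  rw [h1, h2, one_smul]

theorem t_GAU5 : S_GAU5 := by
  intro Z Z' _ _ e
  have hm : Measurable (fun (g : Z' → ℂ) z => g (e z)) := by fun_prop
  have hvol : (volume : Measure (Z' → ℂ)).map (fun (g : Z' → ℂ) z => g (e z)) = volume := by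
    have h := volume_measurePreserving_piCongrLeft (fun _ : Z => ℂ) e.symm
    have h2 : (MeasurableEquiv.piCongrLeft (fun _ : Z => ℂ) e.symm : (Z' → ℂ) → (Z → ℂ)) =
        fun (g : Z' → ℂ) z => g (e z) := by
      funext g z
      change (Equiv.piCongrLeft (fun _ : Z => ℂ) e.symm) g z = g (e z)
      have := Equiv.piCongrLeft_apply_apply (fun _ : Z => ℂ) e.symm g (e z)
      simpa using this
    rw [← h2]
    exact h.map_eq
  have hD : (dens : (Z → ℂ) → ℝ≥0∞) ∘ (fun (g : Z' → ℂ) z => g (e z)) = dens := by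
    funext g
    simp only [Function.comp_apply, dens]
    rw [Fintype.card_congr e, e.sum_comp (fun z' => ‖g z'‖ ^ 2)]
  rw [gau_eq, gau_eq, ← hD, map_withDensity _ _ hm _ measurable_dens, hvol]

end Pool.Agent.L0h60.KQ
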